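import Mathlib
import Pool.Agent.Helper23.BC.Params

set_option autoImplicit false

/-!
# Symmetric designs whose block differences span a small binary code

Let `d` be the dimension over `F_2` of the code spanned by the symmetric differences of two blocks
of a symmetric `(v, k, lam)` design, `2 ≤ k ≤ v - 2`; it is at most the `2`-rank of the incidence
matrix. Then `v + (v - 2 k) ^ 2 ≤ 2 ^ d`, with equality for projective geometries over `F_2`, their
complements and the designs with the symmetric difference property, and only for designs in which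
the symmetric difference of any three blocks is a block, the complement of a block, empty or
everything. If `2 ^ d ≤ 4 v`, then `(v, k, lam)` are the parameters of one of these families.

Proof. Character sums over the code. Away from the differences of blocks the character sum `S` of a
word may differ from its value `v - 4 (k - lam)` at differences of blocks. If `2 ^ d < 4 v` then
these exceptional words form a sum-free set (otherwise there are four disjoint translates of the
set of blocks), hence the convolution square of `S - (v - 4 (k - lam))` has only two terms at an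
exceptional word, and this determines `2 ^ d`.
-/

namespace Pool.Agent.Results.MP_3038d1_co.BlockDifferenceCode

open Finset

/-- The blocks `B i` (`i : Fin v`) form a symmetric `(v, k, lam)`-design on the points `Fin v`: the
blocks have `k` points, and any two points are in exactly `lam` blocks. -/
structure IsSymmetricDesign (v k lam : ℕ) (B : Fin v → Finset (Fin v)) : Prop where
  size : ∀ i, (B i).card = k
  pair : ∀ x y : Fin v, x ≠ y → (univ.filter fun i => x ∈ B i ∧ y ∈ B i).card = lam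

/-- The characteristic vector over `F_2` of a set of points. -/
def word {v : ℕ} (s : Finset (Fin v)) : Fin v → ZMod 2 := fun x => if x ∈ s then 1 else 0

/-- The binary code spanned by the blocks, that is, the row space of the incidence matrix. -/
def blockCode {v : ℕ} (B : Fin v → Finset (Fin v)) : Submodule (ZMod 2) (Fin v → ZMod 2) :=
  Submodule.span (ZMod 2) {w | ∃ i, w = word (B i)}

/-- The binary code spanned by the symmetric differences of two blocks. -/
def differenceCode {v : ℕ} (B : Fin v → Finset (Fin v)) : Submodule (ZMod 2) (Fin v → ZMod 2) :=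
  Submodule.span (ZMod 2) {w | ∃ i j, w = word (symmDiff (B i) (B j))}

/-- The parameters of the points and hyperplanes of `PG(m + 1, 2)`, or of the complementary
design. -/
def ProjectiveParameters (v k lam m : ℕ) : Prop :=
  v = 4 * 2 ^ m - 1 ∧ ((k = 2 * 2 ^ m - 1 ∧ lam = 2 ^ m - 1) ∨ (k = 2 * 2 ^ m ∧ lam = 2 ^ m))

/-- The parameters of the designs with the symmetric difference property. -/
def SDPParameters (v k lam m : ℕ) : Prop :=
  v = 4 ^ (m + 1) ∧
    ((k = 2 * 4 ^ m - 2 ^ m ∧ lam = 4 ^ m - 2 ^ m) ∨ (k = 2 * 4 ^ m + 2 ^ m ∧ lam = 4 ^ m + 2 ^ m))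

theorem result (v k lam d : ℕ) (B : Fin v → Finset (Fin v)) (hB : IsSymmetricDesign v k lam B)
    (hk : 2 ≤ k) (hkv : k + 2 ≤ v) (hd : d = Module.finrank (ZMod 2) (differenceCode B)) :
    -- `d` is at most the `2`-rank of the incidence matrix
    d ≤ Module.finrank (ZMod 2) (blockCode B) ∧
    -- (1) the inequality
    (v : ℤ) + ((v : ℤ) - 2 * k) ^ 2 ≤ 2 ^ d ∧
    -- (2) equality
    ((v : ℤ) + ((v : ℤ) - 2 * k) ^ 2 = 2 ^ d ↔
      (∃ m, 1 ≤ m ∧ ProjectiveParameters v k lam m ∧ d = m + 2) ∨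
      (∃ m, 1 ≤ m ∧ SDPParameters v k lam m ∧ d = 2 * m + 3)) ∧
    ((v : ℤ) + ((v : ℤ) - 2 * k) ^ 2 = 2 ^ d → ∀ i j l,
      (∃ t, symmDiff (symmDiff (B i) (B j)) (B l) = B t) ∨
      (∃ t, symmDiff (symmDiff (B i) (B j)) (B l) = (B t)ᶜ) ∨
      symmDiff (symmDiff (B i) (B j)) (B l) = ∅ ∨
      symmDiff (symmDiff (B i) (B j)) (B l) = univ) ∧
    -- (3) the gap
    (2 ^ d ≤ 4 * v →
      (∃ m, 1 ≤ m ∧ ProjectiveParameters v k lam m ∧ (d = m + 2 ∨ d = m + 3)) ∨
      (∃ m, 1 ≤ m ∧ SDPParameters v k lam m ∧ (d = 2 * m + 3 ∨ d = 2 * m + 4))) := by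
  classical
  have hw : ∀ s : Finset (Fin v), word s = Pool.Agent.N345.SDP.ind s := fun s => rfl
  have e1 : ∀ s t : Finset (Fin v), Pool.Agent.N345.SDP.ind (symmDiff s t) =
      Pool.Agent.N345.SDP.ind s + Pool.Agent.N345.SDP.ind t := by
    intro s t
    funext x
    simp only [Pool.Agent.N345.SDP.ind, Pi.add_apply, mem_symmDiff]
    by_cases h1 : x ∈ s <;> by_cases h2 : x ∈ t <;> simp [h1, h2]
    decide
  have e2 : ∀ s : Finset (Fin v), Pool.Agent.N345.SDP.ind sᶜ = Pool.Agent.N345.SDP.ind s + 1 := by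
    intro s
    funext x
    simp only [Pool.Agent.N345.SDP.ind, Pi.add_apply, mem_compl, Pi.one_apply]
    by_cases h1 : x ∈ s <;> simp [h1]
    decide
  have hv4 : 4 ≤ v := by omega
  -- `lam` is positive
  have hlam : 1 ≤ lam := by
    have h1 := hB.size ⟨0, by omega⟩
    obtain ⟨x, hx, y, hy, hxy⟩ := one_lt_card.1 (show 1 < (B ⟨0, by omega⟩).card by omega)
    rw [← hB.pair x y hxy]
    exact card_pos.2 ⟨_, mem_filter.2 ⟨mem_univ _, hx, hy⟩⟩
  have hdes : Pool.Agent.N345.Sym.Des v k lam B := ⟨hk, by omega, hB.size, hB.pair⟩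
  set H : AddSubgroup (Fin v → ZMod 2) := (differenceCode B).toAddSubgroup with hH
  have hmemH : ∀ g, g ∈ H ↔ g ∈ differenceCode B := fun g => Iff.rfl
  have c : Pool.Agent.Helper23.BC.Ctx v k lam B H := by
    refine ⟨hdes, hlam, hkv, ?_⟩
    intro i j
    rw [hmemH, ← e1]
    exact Submodule.subset_span ⟨i, j, rfl⟩
  have hcard : (Pool.Agent.N345.SDP.Hs H).card = 2 ^ d := by
    rw [Pool.Agent.N345.SDP.card_Hs]
    have h1 : Nat.card H = Nat.card (differenceCode B) := rfl
    rw [h1, Nat.card_eq_fintype_card, Module.card_eq_pow_finrank (K := ZMod 2), ZMod.card, hd]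
  have hcardZ : ((Pool.Agent.N345.SDP.Hs H).card : ℤ) = 2 ^ d := by
    rw [hcard]; push_cast; rfl
  have hsq := Pool.Agent.N345.SDP.square hdes hlam
  have hv5 : v ≠ 5 ∧ v ≠ 4 := by
    have a1 := hdes.count hlam
    constructor
    · rintro rfl
      have : k = 2 ∨ k = 3 := by omega
      rcases this with rfl | rfl <;> omega
    · rintro rfl
      have : k = 2 := by omega
      subst this
      omega
  have hv6 : 4 < v := lt_of_le_of_ne hv4 (Ne.symm hv5.2)
  -- the parameters
  have hpar1 : (v : ℤ) - 4 * ((k : ℤ) - lam) = -1 → 2 ^ d = v + 1 →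
      ∃ m, 1 ≤ m ∧ ProjectiveParameters v k lam m ∧ d = m + 2 := by
    intro h1 h2
    rw [h1] at hsq
    have hd3 : 3 ≤ d := by
      by_contra hcon
      have : 2 ^ d ≤ 2 ^ 2 := Nat.pow_le_pow_right (by norm_num) (by omega)
      omega
    obtain ⟨m, rfl⟩ : ∃ m, d = m + 2 := ⟨d - 2, by omega⟩
    refine ⟨m, by omega, ?_, rfl⟩
    exact Pool.Agent.Helper23.BC.arith_proj h1 (by linarith) (by rw [pow_add] at h2; omega)
  have hpar2 : (v : ℤ) - 4 * ((k : ℤ) - lam) = -1 → 2 ^ d = 2 * (v + 1) →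
      ∃ m, 1 ≤ m ∧ ProjectiveParameters v k lam m ∧ d = m + 3 := by
    intro h1 h2
    rw [h1] at hsq
    have hd3 : 4 ≤ d := by
      by_contra hcon
      have : 2 ^ d ≤ 2 ^ 3 := Nat.pow_le_pow_right (by norm_num) (by omega)
      omega
    obtain ⟨m, rfl⟩ : ∃ m, d = m + 3 := ⟨d - 3, by omega⟩
    refine ⟨m, by omega, ?_, rfl⟩
    exact Pool.Agent.Helper23.BC.arith_proj h1 (by linarith) (by rw [pow_add] at h2; omega)
  have hpar3 : (v : ℤ) - 4 * ((k : ℤ) - lam) = 0 → 2 ^ d = 2 * v →
      ∃ m, 1 ≤ m ∧ SDPParameters v k lam m ∧ d = 2 * m + 3 := by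
    intro h1 h2
    rw [h1] at hsq
    have hd3 : 1 ≤ d := by
      by_contra hcon
      have : d = 0 := by omega
      subst this
      omega
    obtain ⟨j, rfl⟩ : ∃ j, d = j + 1 := ⟨d - 1, by omega⟩
    obtain ⟨m, hm, hj, hv, h⟩ := Pool.Agent.Helper23.BC.arith_menon (j := j) hv6 h1
      (by linarith) (by rw [pow_succ] at h2; linarith)
    exact ⟨m, hm, ⟨hv, h⟩, by omega⟩
  have hpar4 : (v : ℤ) - 4 * ((k : ℤ) - lam) = 0 → 2 ^ d = 4 * v →
      ∃ m, 1 ≤ m ∧ SDPParameters v k lam m ∧ d = 2 * m + 4 := by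
    intro h1 h2
    rw [h1] at hsq
    have hd3 : 2 ≤ d := by
      by_contra hcon
      have : 2 ^ d ≤ 2 ^ 1 := Nat.pow_le_pow_right (by norm_num) (by omega)
      omega
    obtain ⟨j, rfl⟩ : ∃ j, d = j + 2 := ⟨d - 2, by omega⟩
    obtain ⟨m, hm, hj, hv, h⟩ := Pool.Agent.Helper23.BC.arith_menon (j := j) hv6 h1
      (by linarith) (by rw [pow_add] at h2; linarith)
    exact ⟨m, hm, ⟨hv, h⟩, by omega⟩
  refine ⟨?_, ?_, ⟨?_, ?_⟩, ?_, ?_⟩
  · rw [hd]
    refine Submodule.finrank_mono ?_
    unfold differenceCode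
    rw [Submodule.span_le]
    rintro w ⟨i, j, rfl⟩
    rw [SetLike.mem_coe, hw, e1]
    exact Submodule.add_mem _ (Submodule.subset_span ⟨i, rfl⟩) (Submodule.subset_span ⟨j, rfl⟩)
  · have := c.ineq
    rw [hcardZ] at this
    exact this
  · intro h
    rw [← hcardZ] at h
    rcases c.dev_eq h with h1 | h1
    · left
      refine hpar1 h1 ?_
      rw [h1] at hsq
      rw [hcardZ, hsq] at h
      have h2 : (2 : ℤ) ^ d = v + 1 := by linarith
      exact_mod_cast h2
    · right
      refine hpar3 h1 ?_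
      rw [h1] at hsq
      rw [hcardZ, hsq] at h
      have h2 : (2 : ℤ) ^ d = 2 * v := by linarith
      exact_mod_cast h2
  · rintro (⟨m, hm, ⟨h1, h2⟩, rfl⟩ | ⟨m, hm, ⟨h1, h2⟩, rfl⟩)
    · exact Pool.Agent.Helper23.BC.eq_proj h1 h2
    · exact Pool.Agent.Helper23.BC.eq_sdp h1 h2
  · intro h i j l
    rw [← hcardZ] at h
    have h1 : Pool.Agent.N345.SDP.ind (B j) + Pool.Agent.N345.SDP.ind (B l) ∈ H := c.mem j l
    have h2 := c.coset_eq h i h1
    have h3 : Pool.Agent.N345.SDP.ind (symmDiff (symmDiff (B i) (B j)) (B l)) =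
        Pool.Agent.N345.SDP.ind (B i) + (Pool.Agent.N345.SDP.ind (B j) +
          Pool.Agent.N345.SDP.ind (B l)) := by
      rw [e1, e1, add_assoc]
    rw [← h3] at h2
    rcases h2 with ⟨t, ht⟩ | ⟨t, ht⟩ | h2 | h2
    · exact Or.inl ⟨t, Pool.Agent.N345.SDP.ind_inj ht⟩
    · refine Or.inr (Or.inl ⟨t, ?_⟩)
      rw [← e2] at ht
      exact Pool.Agent.N345.SDP.ind_inj ht
    · refine Or.inr (Or.inr (Or.inl ?_))
      refine Pool.Agent.N345.SDP.ind_inj (h2.trans ?_)
      funext x
      simp [Pool.Agent.N345.SDP.ind]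
    · refine Or.inr (Or.inr (Or.inr ?_))
      refine Pool.Agent.N345.SDP.ind_inj (h2.trans ?_)
      funext x
      simp [Pool.Agent.N345.SDP.ind]
  · intro h
    rcases c.orders hcard (by rw [hcard]; exact h) with ⟨h1, h2 | h2⟩ | ⟨h1, h2 | h2⟩
    · obtain ⟨m, a1, a2, a3⟩ := hpar1 h1 (by rw [← hcard]; exact h2)
      exact Or.inl ⟨m, a1, a2, Or.inl a3⟩
    · obtain ⟨m, a1, a2, a3⟩ := hpar2 h1 (by rw [← hcard]; exact h2)
      exact Or.inl ⟨m, a1, a2, Or.inr a3⟩
    · obtain ⟨m, a1, a2, a3⟩ := hpar3 h1 (by rw [← hcard]; exact h2)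
      exact Or.inr ⟨m, a1, a2, Or.inl a3⟩
    · obtain ⟨m, a1, a2, a3⟩ := hpar4 h1 (by rw [← hcard]; exact h2)
      exact Or.inr ⟨m, a1, a2, Or.inr a3⟩

end Pool.Agent.Results.MP_3038d1_co.BlockDifferenceCode
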